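import Pool.Agent.Q78.SAL.Dyn

/-!
# The construction of the drop function
-/

namespace Q78.SAL

open Set Filter Topology

/-- smooth step function of class `C^∞`, `0` for `t ≤ 0`, `1` for `t ≥ 1`. -/
noncomputable def st (t : ℝ) : ℝ := Real.smoothTransition t

theorem st_contDiff : ContDiff ℝ 1 st := Real.smoothTransition.contDiff

theorem st_zero {t : ℝ} (h : t ≤ 0) : st t = 0 := Real.smoothTransition.zero_of_nonpos h

theorem st_one {t : ℝ} (h : 1 ≤ t) : st t = 1 := Real.smoothTransition.one_of_one_le h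

theorem st_nonneg (t : ℝ) : 0 ≤ st t := Real.smoothTransition.nonneg t

theorem st_le_one (t : ℝ) : st t ≤ 1 := Real.smoothTransition.le_one t

theorem st_diff (t : ℝ) : DifferentiableAt ℝ st t := (st_contDiff.differentiable (by norm_num)) t

theorem deriv_st_zero {t : ℝ} (h : t ≤ 0) : deriv st t = 0 := by
  have : IsLocalMin st t := Eventually.of_forall fun x => by
    rw [st_zero h]; exact st_nonneg x
  exact this.deriv_eq_zero

theorem deriv_st_one {t : ℝ} (h : 1 ≤ t) : deriv st t = 0 := by
  have : IsLocalMax st t := Eventually.of_forall fun x => by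
    rw [st_one h]; exact st_le_one x
  exact this.deriv_eq_zero

theorem exists_deriv_bound : ∃ M : ℝ, 0 ≤ M ∧ ∀ t, |deriv st t| ≤ M := by
  have hc : Continuous (deriv st) := st_contDiff.continuous_deriv (by norm_num)
  obtain ⟨M, hM⟩ := (isCompact_Icc (a := (0 : ℝ)) (b := 1)).exists_bound_of_continuousOn
    hc.continuousOn
  refine ⟨max M 0, le_max_right _ _, fun t => ?_⟩
  by_cases h0 : t ≤ 0
  · rw [deriv_st_zero h0, abs_zero]; exact le_max_right _ _
  by_cases h1 : 1 ≤ t
  · rw [deriv_st_one h1, abs_zero]; exact le_max_right _ _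
  exact (hM t ⟨(not_le.1 h0).le, (not_le.1 h1).le⟩).trans (le_max_left _ _)

/-! ### the parameters -/

noncomputable def q (n : ℕ) : ℝ := (1 / 2) ^ (n ^ 2)
noncomputable def g (n : ℕ) : ℝ := (1 / 4) ^ n
noncomputable def p (n : ℕ) : ℝ := (1 / 4) ^ (2 * n + 1)
noncomputable def ep (n : ℕ) : ℝ := q n ^ 2
noncomputable def l (n : ℕ) : ℝ := (1 - q n) / 4
noncomputable def r (n : ℕ) : ℝ := 1 / 2 + g n / 2
noncomputable def D (n : ℕ) : ℝ := 1 / 4 + g n / 2 + q n / 4
noncomputable def La (n : ℕ) : ℝ := D n / ep n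
noncomputable def s (n : ℕ) : ℝ := r n - D n * p n
noncomputable def ta (n : ℕ) : ℝ := p n * q n / 8

theorem q_pos (n : ℕ) : 0 < q n := by unfold q; positivity
theorem g_pos (n : ℕ) : 0 < g n := by unfold g; positivity
theorem p_pos (n : ℕ) : 0 < p n := by unfold p; positivity
theorem ep_pos (n : ℕ) : 0 < ep n := by unfold ep; exact pow_pos (q_pos n) 2
theorem D_pos (n : ℕ) : 0 < D n := by
  have := g_pos n; have := q_pos n; unfold D; linarith
theorem La_pos (n : ℕ) : 0 < La n := div_pos (D_pos n) (ep_pos n)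
theorem ta_pos (n : ℕ) : 0 < ta n := by
  unfold ta; exact div_pos (mul_pos (p_pos n) (q_pos n)) (by norm_num)

theorem q_zero : q 0 = 1 := by unfold q; norm_num
theorem g_zero : g 0 = 1 := by unfold g; norm_num
theorem p_zero : p 0 = 1 / 4 := by unfold p; norm_num

theorem g_succ (n : ℕ) : g (n + 1) = g n / 4 := by unfold g; rw [pow_succ]; ring

theorem q_succ (n : ℕ) : q (n + 1) = q n * (1 / 2) ^ (2 * n + 1) := by
  unfold q; rw [← pow_add]; congr 1; ring

theorem half_pow_le (n : ℕ) : ((1 : ℝ) / 2) ^ (2 * n + 1) ≤ 1 / 2 := by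
  rw [pow_succ]
  have : ((1 : ℝ) / 2) ^ (2 * n) ≤ 1 := pow_le_one₀ (by norm_num) (by norm_num)
  linarith

theorem q_succ_le (n : ℕ) : q (n + 1) ≤ q n / 2 := by
  rw [q_succ]
  have := half_pow_le n
  have h2 := q_pos n
  nlinarith

theorem ep_succ (n : ℕ) : ep (n + 1) = ep n * p n := by
  unfold ep p
  rw [q_succ, mul_pow, ← pow_mul]
  congr 1
  rw [show (1 : ℝ) / 4 = (1 / 2) ^ 2 by norm_num, ← pow_mul]
  congr 1
  ring

theorem q_le_g (n : ℕ) : q n ≤ 2 * g n := by
  unfold q g
  have h1 : 2 * n ≤ n ^ 2 + 1 := by nlinarith [sq_nonneg ((n : ℤ) - 1), sq_nonneg (n - 1)]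
  have h2 : ((1 : ℝ) / 2) ^ (n ^ 2 + 1) ≤ (1 / 2) ^ (2 * n) :=
    pow_le_pow_of_le_one (by norm_num) (by norm_num) h1
  rw [pow_succ] at h2
  rw [show (1 : ℝ) / 4 = (1 / 2) ^ 2 by norm_num, ← pow_mul]
  linarith

theorem q_le_one (n : ℕ) : q n ≤ 1 := pow_le_one₀ (by norm_num) (by norm_num)
theorem g_le_one (n : ℕ) : g n ≤ 1 := pow_le_one₀ (by norm_num) (by norm_num)

theorem p_eq (n : ℕ) : p n = g n ^ 2 / 4 := by
  unfold p g; rw [pow_succ, pow_mul']; ring

theorem p_le (n : ℕ) : p n ≤ g n / 4 := by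
  rw [p_eq]
  have h1 := g_pos n
  have h2 := g_le_one n
  nlinarith

theorem D_le_one (n : ℕ) : D n ≤ 1 := by
  have h1 := g_le_one n; have h2 := q_le_one n; unfold D; linarith

theorem D_ge (n : ℕ) : 1 / 4 ≤ D n := by
  have h1 := g_pos n; have h2 := q_pos n; unfold D; linarith

theorem D_succ_le (n : ℕ) : D (n + 1) ≤ D n := by
  have h1 := g_succ n; have h2 := q_succ_le n; have h3 := g_pos n; have h4 := q_pos n
  unfold D; linarith

theorem ep_succ_le (n : ℕ) : ep (n + 1) ≤ ep n := by
  rw [ep_succ]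
  have h1 := ep_pos n
  have h2 := p_le n
  have h3 := g_le_one n
  nlinarith

/-- `r n - r (n+1)` -/
theorem r_diff (n : ℕ) : r n - r (n + 1) = 3 / 8 * g n := by
  unfold r; rw [g_succ]; ring

theorem ta_le (n : ℕ) : ta n ≤ g n / 32 := by
  unfold ta
  have h1 := p_le n; have h2 := q_le_one n; have h3 := p_pos n; have h4 := q_pos n
  nlinarith

theorem zone_disj (n : ℕ) : r (n + 1) + ta (n + 1) < s n - ta n := by
  have h1 := r_diff n
  have h2 := ta_le n
  have h3 := ta_le (n + 1)
  rw [g_succ] at h3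
  have h4 := D_le_one n
  have h5 := p_le n
  have h6 := p_pos n
  have h7 := g_pos n
  have h8 : D n * p n ≤ p n := by nlinarith
  unfold s
  linarith

/-- the affine function on the `n`-th interval -/
noncomputable def A (n : ℕ) (x : ℝ) : ℝ :=
  ep n / D n * (3 / 8 * g n + D (n + 1) / (D n * p n) * (r n - x))

/-- the `n`-th piece of the drop function -/
noncomputable def ph (n : ℕ) (x : ℝ) : ℝ :=
  st ((x - s n) / ta n + 1) * st ((r n - x) / ta n + 1) * A n x

theorem A_bounds (n : ℕ) {x : ℝ} (h1 : s n - ta n ≤ x) (h2 : x ≤ r n + ta n) :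
    0 ≤ A n x ∧ A n x ≤ ep n := by
  have hD := D_pos n
  have hD' := D_pos (n + 1)
  have hp := p_pos n
  have hq := q_pos n
  have he := ep_pos n
  have hg := g_pos n
  have hc : 0 < D (n + 1) / (D n * p n) := div_pos hD' (mul_pos hD hp)
  have hratio : D (n + 1) / D n ≤ 1 := (div_le_one hD).2 (D_succ_le n)
  have hratio0 : 0 ≤ D (n + 1) / D n := div_nonneg hD'.le hD.le
  -- c * ta ≤ q / 8
  have hct : D (n + 1) / (D n * p n) * ta n ≤ q n / 8 := by
    have : D (n + 1) / (D n * p n) * ta n = D (n + 1) / D n * (q n / 8) := by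
      unfold ta; field_simp
    rw [this]
    nlinarith
  have hcD : D (n + 1) / (D n * p n) * (D n * p n) = D (n + 1) := by
    field_simp
  constructor
  · refine mul_nonneg (div_nonneg he.le hD.le) ?_
    have h3 : -(ta n) ≤ r n - x := by linarith
    have h4 := mul_le_mul_of_nonneg_left h3 hc.le
    have h5 := q_le_g n
    nlinarith
  · unfold A
    rw [div_mul_eq_mul_div, div_le_iff₀ hD]
    refine mul_le_mul_of_nonneg_left ?_ he.le
    have h3 : r n - x ≤ D n * p n + ta n := by unfold s at h1; linarith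
    have h4 := mul_le_mul_of_nonneg_left h3 hc.le
    rw [mul_add, hcD] at h4
    have h5 : 3 / 8 * g n + D (n + 1) + q n / 8 ≤ D n := by
      have := g_succ n; have := q_succ_le n
      unfold D; linarith
    linarith

theorem arg_neg_left {n : ℕ} {x : ℝ} (h : x ≤ s n - ta n) : (x - s n) / ta n + 1 ≤ 0 := by
  have := ta_pos n
  rw [div_add_one this.ne', div_nonpos_iff]
  right
  exact ⟨by linarith, this.le⟩

theorem arg_neg_right {n : ℕ} {x : ℝ} (h : r n + ta n ≤ x) : (r n - x) / ta n + 1 ≤ 0 := by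
  have := ta_pos n
  rw [div_add_one this.ne', div_nonpos_iff]
  right
  exact ⟨by linarith, this.le⟩

theorem ph_zero_left {n : ℕ} {x : ℝ} (h : x ≤ s n - ta n) : ph n x = 0 := by
  unfold ph; rw [st_zero (arg_neg_left h)]; ring

theorem ph_zero_right {n : ℕ} {x : ℝ} (h : r n + ta n ≤ x) : ph n x = 0 := by
  unfold ph; rw [st_zero (arg_neg_right h)]; ring

theorem ph_eq {n : ℕ} {x : ℝ} (h1 : s n ≤ x) (h2 : x ≤ r n) : ph n x = A n x := by
  have := ta_pos n
  unfold ph
  rw [st_one, st_one, one_mul, one_mul]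
  · have : 0 ≤ (r n - x) / ta n := div_nonneg (by linarith) this.le
    linarith
  · have : 0 ≤ (x - s n) / ta n := div_nonneg (by linarith) this.le
    linarith

theorem ph_bounds (n : ℕ) (x : ℝ) : 0 ≤ ph n x ∧ ph n x ≤ ep n := by
  by_cases h1 : x ≤ s n - ta n
  · rw [ph_zero_left h1]; exact ⟨le_rfl, (ep_pos n).le⟩
  by_cases h2 : r n + ta n ≤ x
  · rw [ph_zero_right h2]; exact ⟨le_rfl, (ep_pos n).le⟩
  obtain ⟨h3, h4⟩ := A_bounds n (not_le.1 h1).le (not_le.1 h2).le
  unfold ph
  have h5 := st_nonneg ((x - s n) / ta n + 1)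
  have h6 := st_le_one ((x - s n) / ta n + 1)
  have h7 := st_nonneg ((r n - x) / ta n + 1)
  have h8 := st_le_one ((r n - x) / ta n + 1)
  have h9 : st ((x - s n) / ta n + 1) * st ((r n - x) / ta n + 1) ≤ 1 := by nlinarith
  have h10 : 0 ≤ st ((x - s n) / ta n + 1) * st ((r n - x) / ta n + 1) := mul_nonneg h5 h7
  constructor
  · exact mul_nonneg h10 h3
  · nlinarith

theorem ph_contDiff (n : ℕ) : ContDiff ℝ 1 (ph n) := by
  unfold ph
  refine ContDiff.mul (ContDiff.mul (st_contDiff.comp ?_) (st_contDiff.comp ?_)) ?_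
  · exact ((contDiff_id.sub contDiff_const).div_const _).add contDiff_const
  · exact ((contDiff_const.sub contDiff_id).div_const _).add contDiff_const
  · exact contDiff_const.mul (contDiff_const.add (contDiff_const.mul
      (contDiff_const.sub contDiff_id)))

theorem ph_hasDerivAt (n : ℕ) (x : ℝ) : HasDerivAt (ph n)
    ((deriv st ((x - s n) / ta n + 1) / ta n * st ((r n - x) / ta n + 1) +
      st ((x - s n) / ta n + 1) * (-(deriv st ((r n - x) / ta n + 1)) / ta n)) * A n x +
      st ((x - s n) / ta n + 1) * st ((r n - x) / ta n + 1) *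
        (-(ep n / D n * (D (n + 1) / (D n * p n))))) x := by
  have h1 : HasDerivAt (fun x => st ((x - s n) / ta n + 1))
      (deriv st ((x - s n) / ta n + 1) / ta n) x := by
    have h2 : HasDerivAt (fun x : ℝ => (x - s n) / ta n + 1) (1 / ta n) x :=
      (((hasDerivAt_id x).sub_const (s n)).div_const (ta n)).add_const 1
    have h3 : HasDerivAt (fun x => st ((x - s n) / ta n + 1))
        (deriv st ((x - s n) / ta n + 1) * (1 / ta n)) x :=
      (st_diff ((x - s n) / ta n + 1)).hasDerivAt.comp x h2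
    exact h3.congr_deriv (by ring)
  have h2 : HasDerivAt (fun x => st ((r n - x) / ta n + 1))
      (-(deriv st ((r n - x) / ta n + 1)) / ta n) x := by
    have h2 : HasDerivAt (fun x : ℝ => (r n - x) / ta n + 1) (-1 / ta n) x :=
      (((hasDerivAt_id x).const_sub (r n)).div_const (ta n)).add_const 1
    have h3 : HasDerivAt (fun x => st ((r n - x) / ta n + 1))
        (deriv st ((r n - x) / ta n + 1) * (-1 / ta n)) x :=
      (st_diff ((r n - x) / ta n + 1)).hasDerivAt.comp x h2
    exact h3.congr_deriv (by ring)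
  have h3 : HasDerivAt (A n) (-(ep n / D n * (D (n + 1) / (D n * p n)))) x := by
    unfold A
    have h4 : HasDerivAt (fun x : ℝ => 3 / 8 * g n + D (n + 1) / (D n * p n) * (r n - x))
        (D (n + 1) / (D n * p n) * (-1)) x :=
      (((hasDerivAt_id x).const_sub (r n)).const_mul _).const_add _
    have h5 := h4.const_mul (ep n / D n)
    exact h5.congr_deriv (by ring)
  exact (h1.mul h2).mul h3

/-- The derivative bound. -/
theorem ph_deriv_le {M : ℝ} (hM0 : 0 ≤ M) (hM : ∀ t, |deriv st t| ≤ M) (n : ℕ) (x : ℝ) :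
    |deriv (ph n) x| ≤ (16 * M + 4) * (q n / p n) := by
  have hD := D_pos n
  have hD' := D_pos (n + 1)
  have hp := p_pos n
  have hq := q_pos n
  have he := ep_pos n
  have ht := ta_pos n
  rw [(ph_hasDerivAt n x).deriv]
  set s1 := st ((x - s n) / ta n + 1) with hs1
  set s2 := st ((r n - x) / ta n + 1) with hs2
  set d1 := deriv st ((x - s n) / ta n + 1) with hd1
  set d2 := deriv st ((r n - x) / ta n + 1) with hd2
  have h5 : |s1| ≤ 1 := abs_le.2 ⟨by linarith [st_nonneg ((x - s n) / ta n + 1)], st_le_one _⟩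
  have h6 : |s2| ≤ 1 := abs_le.2 ⟨by linarith [st_nonneg ((r n - x) / ta n + 1)], st_le_one _⟩
  have h7 : |d1| ≤ M := hM _
  have h8 : |d2| ≤ M := hM _
  have hA : |(d1 / ta n * s2 + s1 * (-d2 / ta n)) * A n x| ≤ (2 * M / ta n) * ep n := by
    by_cases h1 : x ≤ s n - ta n
    · have e1 : s1 = 0 := st_zero (arg_neg_left h1)
      have e2 : d1 = 0 := deriv_st_zero (arg_neg_left h1)
      rw [e1, e2]; simp only [zero_div, zero_mul, add_zero, abs_zero]; positivity
    by_cases h2 : r n + ta n ≤ x
    · have e1 : s2 = 0 := st_zero (arg_neg_right h2)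
      have e2 : d2 = 0 := deriv_st_zero (arg_neg_right h2)
      rw [e1, e2]; simp only [neg_zero, zero_div, mul_zero, add_zero, zero_mul, abs_zero]
      positivity
    obtain ⟨h3, h4⟩ := A_bounds n (not_le.1 h1).le (not_le.1 h2).le
    rw [abs_mul, abs_of_nonneg h3]
    refine mul_le_mul ?_ h4 h3 (by positivity)
    refine (abs_add_le _ _).trans ?_
    rw [abs_mul, abs_mul, abs_div, abs_div, abs_neg, abs_of_pos ht]
    have e1 : |d1| / ta n * |s2| ≤ M / ta n * 1 :=
      mul_le_mul (div_le_div_of_nonneg_right h7 ht.le) h6 (abs_nonneg _) (by positivity)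
    have e2 : |s1| * (|d2| / ta n) ≤ 1 * (M / ta n) :=
      mul_le_mul h5 (div_le_div_of_nonneg_right h8 ht.le) (by positivity) zero_le_one
    have e3 : 2 * M / ta n = M / ta n * 1 + 1 * (M / ta n) := by ring
    rw [e3]
    exact add_le_add e1 e2
  have hB : |s1 * s2 * (-(ep n / D n * (D (n + 1) / (D n * p n))))| ≤ 4 * (ep n / p n) := by
    rw [abs_mul, abs_neg, abs_mul]
    have e1 : |s1| * |s2| ≤ 1 := by nlinarith [abs_nonneg s1, abs_nonneg s2]
    have e2 : |ep n / D n * (D (n + 1) / (D n * p n))| = ep n / D n * (D (n + 1) / (D n * p n)) :=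
      abs_of_nonneg (by positivity)
    rw [e2]
    have e3 : ep n / D n * (D (n + 1) / (D n * p n)) ≤ 4 * (ep n / p n) := by
      have e4 : ep n / D n * (D (n + 1) / (D n * p n))
          = (D (n + 1) / D n) * (1 / D n) * (ep n / p n) := by field_simp
      rw [e4]
      refine mul_le_mul_of_nonneg_right ?_ (by positivity)
      have e5 : D (n + 1) / D n ≤ 1 := (div_le_one hD).2 (D_succ_le n)
      have e6 : 1 / D n ≤ 4 := by
        rw [div_le_iff₀ hD]; linarith [D_ge n]
      have e7 : 0 ≤ 1 / D n := by positivity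
      nlinarith
    have e8 : 0 ≤ ep n / D n * (D (n + 1) / (D n * p n)) := by positivity
    calc |s1| * |s2| * (ep n / D n * (D (n + 1) / (D n * p n)))
        ≤ 1 * (ep n / D n * (D (n + 1) / (D n * p n))) := mul_le_mul_of_nonneg_right e1 e8
      _ ≤ _ := by rw [one_mul]; exact e3
  refine (abs_add_le _ _).trans ((add_le_add hA hB).trans ?_)
  have e1 : 2 * M / ta n * ep n = 16 * M * (q n / p n) := by
    unfold ta ep; field_simp; ring
  have e2 : ep n / p n ≤ q n / p n := by
    refine div_le_div_of_nonneg_right ?_ hp.le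
    unfold ep
    have := q_le_one n
    nlinarith
  rw [e1]
  linarith

theorem qp_le (n : ℕ) : q n / p n ≤ 256 * (1 / 2) ^ n := by
  rw [div_le_iff₀ (p_pos n)]
  unfold q p
  have h1 : 5 * n + 2 ≤ n ^ 2 + 8 := by
    rcases Nat.lt_or_ge n 3 with h | h
    · interval_cases n <;> norm_num
    · obtain ⟨k, rfl⟩ := Nat.exists_eq_add_of_le h
      ring_nf
      nlinarith
  have h2 : ((1 : ℝ) / 2) ^ (n ^ 2 + 8) ≤ (1 / 2) ^ (5 * n + 2) :=
    pow_le_pow_of_le_one (by norm_num) (by norm_num) h1
  have h3 : 256 * ((1 : ℝ) / 2) ^ n * (1 / 4) ^ (2 * n + 1) = 256 * (1 / 2) ^ (5 * n + 2) := by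
    rw [show (1 : ℝ) / 4 = (1 / 2) ^ 2 by norm_num, ← pow_mul, mul_assoc, ← pow_add]
    congr 2
    ring
  rw [h3]
  have h4 : ((1 : ℝ) / 2) ^ (n ^ 2 + 8) = (1 / 2) ^ (n ^ 2) / 256 := by
    rw [pow_add]; norm_num; ring
  rw [h4] at h2
  linarith

theorem ep_le_half (n : ℕ) : ep n ≤ (1 / 2) ^ n := by
  unfold ep q
  rw [← pow_mul]
  apply pow_le_pow_of_le_one (by norm_num) (by norm_num)
  nlinarith [Nat.le_self_pow (n := 2) (by norm_num) n]

/-- the right part of the drop function -/
noncomputable def PhR (x : ℝ) : ℝ := ∑' n, ph n x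

theorem PhR_contDiff : ContDiff ℝ 1 PhR := by
  obtain ⟨M, hM0, hM⟩ := exists_deriv_bound
  have hgeo : Summable (fun n : ℕ => ((1 : ℝ) / 2) ^ n) :=
    summable_geometric_of_lt_one (by norm_num) (by norm_num)
  unfold PhR
  refine contDiff_tsum (v := fun k n => if k = 0 then (1 / 2) ^ n
    else (16 * M + 4) * (256 * (1 / 2) ^ n)) ph_contDiff ?_ ?_
  · intro k _
    by_cases hk : k = 0
    · simp only [hk, if_true]; exact hgeo
    · simp only [hk, if_false]; exact (hgeo.mul_left 256).mul_left _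
  · intro k n x hk
    have hk' : k ≤ 1 := by exact_mod_cast hk
    interval_cases k
    · simp only [if_true, norm_iteratedFDeriv_zero, Real.norm_eq_abs]
      obtain ⟨h1, h2⟩ := ph_bounds n x
      rw [abs_of_nonneg h1]
      exact h2.trans (ep_le_half n)
    · rw [norm_iteratedFDeriv_eq_norm_iteratedDeriv, iteratedDeriv_one, Real.norm_eq_abs]
      simp only [one_ne_zero, if_false]
      refine (ph_deriv_le hM0 hM n x).trans ?_
      exact mul_le_mul_of_nonneg_left (qp_le n) (by linarith)

theorem r_anti' : Antitone r := antitone_nat_of_succ_le fun n => by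
  have := r_diff n; have := g_pos n; linarith

theorem s_gt (n : ℕ) : r (n + 1) < s n - ta n := by
  have := zone_disj n; have := ta_pos (n + 1); linarith

theorem r_gt (n : ℕ) : 1 / 2 < r n := by have := g_pos n; unfold r; linarith

/-- zones with index below `n` are to the right of `r n`, strictly -/
theorem zone_right {m n : ℕ} (h : m < n) : r n < s m - ta m :=
  (r_anti' h).trans_lt (s_gt m)

theorem PhR_left {x : ℝ} (hx : x ≤ 1 / 2) : PhR x = 0 := by
  unfold PhR
  have : ∀ n, ph n x = 0 := fun n => ph_zero_left (hx.trans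
    ((r_gt (n + 1)).le.trans (s_gt n).le))
  simp [this]

theorem ph_other {m n : ℕ} (hmn : m ≠ n) {x : ℝ} (h1 : s n - ta n ≤ x) (h2 : x ≤ r n + ta n) :
    ph m x = 0 := by
  rcases lt_or_gt_of_ne hmn with h | h
  · -- zone m is to the right
    apply ph_zero_left
    obtain ⟨k, rfl⟩ := Nat.exists_eq_add_of_lt h
    have h3 := zone_disj (m + k)
    have h4 : r (m + k + 1) + ta (m + k + 1) ≤ s m - ta m := by
      rcases Nat.eq_zero_or_pos k with rfl | hk
      · exact (zone_disj m).le
      · have h5 : r (m + k) < s m - ta m := zone_right (by omega)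
        have h6 := ta_pos (m + k)
        have h7 : s (m + k) ≤ r (m + k) := by
          unfold s; have := mul_pos (D_pos (m + k)) (p_pos (m + k)); linarith
        linarith
    linarith
  · -- zone m is to the left
    apply ph_zero_right
    have h3 : r m + ta m ≤ s n - ta n := by
      obtain ⟨k, rfl⟩ := Nat.exists_eq_add_of_lt h
      rcases Nat.eq_zero_or_pos k with rfl | hk
      · exact (zone_disj n).le
      · have h5 : r (n + k) < s n - ta n := zone_right (by omega)
        have h6 := ta_pos (n + k)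
        have h7 : s (n + k) ≤ r (n + k) := by
          unfold s; have := mul_pos (D_pos (n + k)) (p_pos (n + k)); linarith
        have h8 := zone_disj (n + k)
        linarith
    linarith

theorem PhR_zone {n : ℕ} {x : ℝ} (h1 : s n - ta n ≤ x) (h2 : x ≤ r n + ta n) : PhR x = ph n x :=
  tsum_eq_single n fun _ hm => ph_other hm h1 h2

theorem PhR_bounds (n : ℕ) {x : ℝ} (hx : x ≤ r n) : 0 ≤ PhR x ∧ PhR x ≤ ep n := by
  by_cases h : ∃ m, s m - ta m ≤ x ∧ x ≤ r m + ta m
  · obtain ⟨m, h1, h2⟩ := h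
    rw [PhR_zone h1 h2]
    refine ⟨(ph_bounds m x).1, (ph_bounds m x).2.trans ?_⟩
    have hm : n ≤ m := by
      by_contra hlt
      have := zone_right (not_le.1 hlt)
      linarith
    have : Antitone ep := antitone_nat_of_succ_le ep_succ_le
    exact this hm
  · push Not at h
    have : ∀ m, ph m x = 0 := by
      intro m
      by_cases h1 : s m - ta m ≤ x
      · exact ph_zero_right (h m h1).le
      · exact ph_zero_left (not_le.1 h1).le
    unfold PhR
    simp only [this, tsum_zero]
    exact ⟨le_rfl, (ep_pos n).le⟩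

/-- the left part -/
noncomputable def PhL (x : ℝ) : ℝ := (max 0 (1 - 4 * x)) ^ 2

theorem sqmax_hasDerivAt (t : ℝ) : HasDerivAt (fun t : ℝ => (max 0 t) ^ 2) (2 * max 0 t) t := by
  rcases lt_trichotomy t 0 with h | h | h
  · have h1 : (fun t : ℝ => (max 0 t) ^ 2) =ᶠ[𝓝 t] fun _ => 0 := by
      filter_upwards [gt_mem_nhds h] with y hy
      rw [max_eq_left hy.le]; norm_num
    rw [max_eq_left h.le, mul_zero]
    exact (hasDerivAt_const t (0 : ℝ)).congr_of_eventuallyEq h1
  · subst h
    rw [max_self, mul_zero]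
    rw [hasDerivAt_iff_isLittleO_nhds_zero]
    have h1 : (fun h : ℝ => h ^ 2) =o[𝓝 0] fun h => h := by
      have := Asymptotics.isLittleO_pow_id (𝕜 := ℝ) (n := 2) (by norm_num)
      simpa using this
    refine Asymptotics.IsBigO.trans_isLittleO ?_ h1
    refine Asymptotics.IsBigO.of_bound 1 (Eventually.of_forall fun h => ?_)
    simp only [zero_add, max_self, smul_eq_mul, mul_zero, sub_zero, one_mul, Real.norm_eq_abs]
    have e0 : ((0 : ℝ)) ^ 2 = 0 := by norm_num
    rw [e0, sub_zero, abs_of_nonneg (sq_nonneg _), abs_of_nonneg (sq_nonneg _)]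
    rcases le_total h 0 with h' | h'
    · rw [max_eq_left h', e0]; exact sq_nonneg _
    · rw [max_eq_right h']
  · have h1 : (fun t : ℝ => (max 0 t) ^ 2) =ᶠ[𝓝 t] fun t => t ^ 2 := by
      filter_upwards [lt_mem_nhds h] with y hy
      rw [max_eq_right hy.le]
    rw [max_eq_right h.le]
    have h2 : HasDerivAt (fun t : ℝ => t ^ 2) (2 * t) t := by
      have := hasDerivAt_pow 2 t
      simpa using this
    exact h2.congr_of_eventuallyEq h1

theorem sqmax_contDiff : ContDiff ℝ 1 (fun t : ℝ => (max 0 t) ^ 2) := by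
  rw [contDiff_one_iff_deriv]
  refine ⟨fun t => (sqmax_hasDerivAt t).differentiableAt, ?_⟩
  have : deriv (fun t : ℝ => (max 0 t) ^ 2) = fun t => 2 * max 0 t :=
    funext fun t => (sqmax_hasDerivAt t).deriv
  rw [this]
  fun_prop

theorem PhL_contDiff : ContDiff ℝ 1 PhL :=
  sqmax_contDiff.comp (contDiff_const.sub (contDiff_const.mul contDiff_id))

/-- the drop function -/
noncomputable def Ph (x : ℝ) : ℝ := PhL x + PhR x

theorem Ph_contDiff : ContDiff ℝ 1 Ph := PhL_contDiff.add PhR_contDiff

theorem PhL_right {x : ℝ} (hx : 1 / 4 ≤ x) : PhL x = 0 := by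
  unfold PhL; rw [max_eq_left (by linarith)]; norm_num

theorem l_lt (n : ℕ) : l n < 1 / 4 := by have := q_pos n; unfold l; linarith

theorem q_tend : Tendsto q atTop (𝓝 0) := by
  refine squeeze_zero (fun n => (q_pos n).le) (fun n => ?_)
    (tendsto_pow_atTop_nhds_zero_of_lt_one (r := (1 : ℝ) / 2) (by norm_num) (by norm_num))
  unfold q
  exact pow_le_pow_of_le_one (by norm_num) (by norm_num) (Nat.le_self_pow (by norm_num) n)

/-- The data. -/
noncomputable def data : Data where
  Φ := Ph
  l := l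
  r := r
  ε := ep
  Λ := La
  a := 1 / 4
  b := 1 / 2
  hl0 := by unfold l; rw [q_zero]; norm_num
  hr0 := by unfold r; rw [g_zero]; norm_num
  hΛ0 := by unfold La D ep; rw [q_zero, g_zero]; norm_num
  hlmono n := by
    have := q_succ_le n; have := q_pos n; unfold l; linarith
  hla := l_lt
  hab := by norm_num
  hltend := by
    have : Tendsto (fun n => (1 - q n) / 4) atTop (𝓝 ((1 - 0) / 4)) :=
      (tendsto_const_nhds.sub q_tend).div_const 4
    rw [sub_zero] at this
    exact this
  hΛ := La_pos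
  hε := ep_pos
  hεanti := ep_succ_le
  hlen n := by
    unfold La
    rw [div_mul_cancel₀ _ (ep_pos n).ne']
    unfold r l D; ring
  hbs n := by
    have h1 : La n * ep (n + 1) = D n * p n := by
      unfold La; rw [ep_succ]; field_simp [(ep_pos n).ne']
    rw [h1]
    have h2 := s_gt n
    have h3 := ta_pos n
    have h4 := r_gt (n + 1)
    unfold s at h2
    linarith
  hrs n := by
    have h1 : La n * ep (n + 1) = D n * p n := by
      unfold La; rw [ep_succ]; field_simp [(ep_pos n).ne']
    rw [h1]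
    have h2 := s_gt n
    have h3 := ta_pos n
    unfold s at h2
    linarith
  hΦ n x hx := by
    obtain ⟨h1, h2⟩ := PhR_bounds n hx.2
    unfold Ph
    rcases le_total x (1 / 4) with h | h
    · rw [PhR_left (by linarith), add_zero]
      unfold PhL
      rw [max_eq_right (by linarith)]
      refine ⟨by positivity, ?_⟩
      have h3 := hx.1
      unfold l at h3
      unfold ep
      have h4 : 1 - 4 * x ≤ q n := by linarith
      exact pow_le_pow_left₀ (by linarith) h4 2
    · rw [PhL_right h, zero_add]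
      exact ⟨h1, h2⟩
  hΦl n := by
    have h1 := l_lt n
    unfold Ph
    rw [PhR_left (by linarith), add_zero]
    unfold PhL
    rw [max_eq_right (by linarith)]
    unfold l ep
    ring
  hΦr n t ht := by
    have hD := D_pos n
    have he := ep_pos n
    have hp := p_pos n
    have hx : La n * t ≤ D n * p n := by
      have h2 : La n * ep (n + 1) = D n * p n := by
        unfold La; rw [ep_succ]; field_simp [(ep_pos n).ne']
      rw [← h2]
      exact mul_le_mul_of_nonneg_left ht.2 (La_pos n).le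
    have hx0 : 0 ≤ La n * t := mul_nonneg (La_pos n).le ht.1
    have h1 : s n ≤ r n - La n * t := by unfold s; linarith
    have h2 : r n - La n * t ≤ r n := by linarith
    have h3 := ta_pos n
    have h4 : 1 / 4 ≤ r n - La n * t := by
      have := s_gt n; have := r_gt (n + 1); linarith
    unfold Ph
    rw [PhL_right h4, zero_add, PhR_zone (n := n) (by linarith) (by linarith), ph_eq h1 h2,
      r_diff n]
    unfold A La
    rw [ep_succ]
    field_simp
    ring
  hcont := Ph_contDiff.continuous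

/-- A continuously differentiable self-map of `[0,1]` with a special alpha-limit set that is not
closed. -/
theorem main : ∃ f : ℝ → ℝ, ContDiff ℝ 1 f ∧ MapsTo f (Icc 0 1) (Icc 0 1) ∧
    ∃ x ∈ Icc (0 : ℝ) 1, ¬ IsClosed (sAlpha f x) :=
  ⟨data.f, contDiff_const.sub Ph_contDiff, data.mapsTo, 1 / 4, by norm_num, data.not_isClosed⟩

end Q78.SAL
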