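import Mathlib

/-!
# An interval map with a special alpha-limit set that is not closed: the dynamics

`f = 1 - Φ` where `Φ` takes prescribed affine values on a sequence of intervals
`[r n - Λ n * ε (n+1), r n]` converging to a point `b` from the right, and is monotone on the left of
a point `a < b`.
-/

namespace Q78.SAL

open Set Filter Topology

/-- The special `α`-limit set of `x` for `f : [0,1] → [0,1]`: all limits of subsequences of backward
orbit branches `u 0 = x`, `f (u (n+1)) = u n` in `[0,1]`. -/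
def sAlpha (f : ℝ → ℝ) (x : ℝ) : Set ℝ :=
  {y | ∃ u : ℕ → ℝ, (∀ n, u n ∈ Icc (0 : ℝ) 1) ∧ u 0 = x ∧ (∀ n, f (u (n + 1)) = u n) ∧
    ∃ φ : ℕ → ℕ, StrictMono φ ∧ Tendsto (fun k => u (φ k)) atTop (𝓝 y)}

/-- A backward orbit staying in a compact set for the `N`-th iterate gives a point of the special
`α`-limit set. -/
theorem exists_mem_sAlpha {f : ℝ → ℝ} (hf : MapsTo f (Icc 0 1) (Icc 0 1)) {N : ℕ} (hN : 0 < N)
    {c d x : ℝ} (hc : 0 ≤ c) (hd : d ≤ 1)
    (hcov : ∀ w, w = x ∨ w ∈ Icc c d → ∃ z ∈ Icc c d, f^[N] z = w) :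
    ∃ y ∈ Icc c d, y ∈ sAlpha f x := by
  have hIt : ∀ k : ℕ, MapsTo f^[k] (Icc 0 1) (Icc 0 1) := fun k => hf.iterate k
  choose! g hg1 hg2 using hcov
  -- the sequence z
  set z : ℕ → ℝ := fun n => g^[n] x with hz
  have hz0 : z 0 = x := rfl
  have hzs : ∀ n, z (n + 1) = g (z n) := fun n => by
    simp only [hz, Function.iterate_succ', Function.comp_apply]
  have hzmem : ∀ n, z (n + 1) ∈ Icc c d ∧ f^[N] (z (n + 1)) = z n := by
    intro n
    induction n with
    | zero => rw [hzs, hz0]; exact ⟨hg1 x (Or.inl rfl), hg2 x (Or.inl rfl)⟩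
    | succ n ih =>
      rw [hzs (n + 1)]
      exact ⟨hg1 _ (Or.inr ih.1), hg2 _ (Or.inr ih.1)⟩
  have hI : ∀ w ∈ Icc c d, w ∈ Icc (0 : ℝ) 1 := fun w hw => ⟨hc.trans hw.1, hw.2.trans hd⟩
  -- the branch
  set u : ℕ → ℝ := fun k => f^[N * (k / N + 1) - k] (z (k / N + 1)) with hu
  have hlt : ∀ k, k < N * (k / N + 1) := fun k => by
    have h1 := Nat.div_add_mod k N
    have h2 := Nat.mod_lt k hN
    have h3 : N * (k / N + 1) = N * (k / N) + N := by ring
    omega
  have huq : ∀ q, u (N * q) = z q := by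
    intro q
    have h1 : N * q / N = q := Nat.mul_div_cancel_left q hN
    simp only [hu, h1]
    have h2 : N * (q + 1) - N * q = N := by
      have : N * (q + 1) = N * q + N := by ring
      omega
    rw [h2]
    exact (hzmem q).2
  have hstep : ∀ k, f (u (k + 1)) = u k := by
    intro k
    by_cases hk : (k + 1) % N = 0
    · obtain ⟨q, hq⟩ := Nat.dvd_of_mod_eq_zero hk
      have hq0 : q ≠ 0 := by rintro rfl; simp at hq
      obtain ⟨p, rfl⟩ := Nat.exists_eq_succ_of_ne_zero hq0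
      rw [hq, huq]
      have hkN : k / N = p := by
        have h3 : N * (p + 1) = N * p + N := by ring
        rw [Nat.succ_eq_add_one] at hq
        have h4 : k = N * p + (N - 1) := by omega
        rw [h4, Nat.mul_add_div hN, Nat.div_eq_of_lt (by omega)]
        simp
      simp only [hu, hkN, Nat.succ_eq_add_one]
      have h5 : N * (p + 1) - k = 1 := by
        rw [Nat.succ_eq_add_one] at hq
        omega
      rw [h5, Function.iterate_one]
    · have hdiv : (k + 1) / N = k / N := by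
        rw [Nat.add_div hN]
        have h1 : 1 / N ≤ 1 := Nat.div_le_self 1 N
        have h2 := Nat.mod_lt k hN
        by_cases hN1 : N = 1
        · subst hN1; simp [Nat.mod_one] at hk
        · have h3 : 1 < N := by omega
          have h4 : 1 / N = 0 := Nat.div_eq_of_lt h3
          have h5 : 1 % N = 1 := Nat.mod_eq_of_lt h3
          rw [h4, h5]
          have h6 : ¬ N ≤ k % N + 1 := by
            intro h
            have h7 : k % N + 1 = N := by omega
            apply hk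
            rw [Nat.add_mod, h5, h7, Nat.mod_self]
          simp [h6]
      simp only [hu, hdiv]
      have h1 := hlt (k + 1)
      rw [hdiv] at h1
      rw [← Function.iterate_succ_apply' f]
      congr 1
      congr 1
      omega
  have hmem : ∀ k, u k ∈ Icc (0 : ℝ) 1 := fun k => hIt _ (hI _ (hzmem _).1)
  have hu0 : u 0 = x := by
    have := huq 0
    rw [Nat.mul_zero] at this
    rw [this, hz0]
  -- compactness
  obtain ⟨y, hy, ψ, hψ, hlim⟩ := (isCompact_Icc (a := c) (b := d)).tendsto_subseq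
    (x := fun n => z (n + 1)) (fun n => (hzmem n).1)
  refine ⟨y, hy, u, hmem, hu0, hstep, fun k => N * (ψ k + 1), ?_, ?_⟩
  · intro i j hij
    exact Nat.mul_lt_mul_of_pos_left (Nat.add_lt_add_right (hψ hij) 1) hN
  · simp only [huq]
    exact hlim

/-- The data of the construction. -/
structure Data where
  /-- the drop function -/
  Φ : ℝ → ℝ
  /-- left end points -/
  l : ℕ → ℝ
  /-- right end points -/
  r : ℕ → ℝ
  /-- heights -/
  ε : ℕ → ℝ
  /-- expansion factors -/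
  Λ : ℕ → ℝ
  /-- left limit -/
  a : ℝ
  /-- right limit -/
  b : ℝ
  hl0 : l 0 = 0
  hr0 : r 0 = 1
  hΛ0 : Λ 0 = 1
  hlmono : ∀ n, l n < l (n + 1)
  hla : ∀ n, l n < a
  hab : a < b
  hltend : Tendsto l atTop (𝓝 a)
  hΛ : ∀ n, 0 < Λ n
  hε : ∀ n, 0 < ε n
  hεanti : ∀ n, ε (n + 1) ≤ ε n
  hlen : ∀ n, r n - l n = Λ n * ε n
  hbs : ∀ n, b ≤ r n - Λ n * ε (n + 1)
  hrs : ∀ n, r (n + 1) ≤ r n - Λ n * ε (n + 1)
  hΦ : ∀ n, ∀ x ∈ Icc (l n) (r n), 0 ≤ Φ x ∧ Φ x ≤ ε n
  hΦl : ∀ n, Φ (l n) = ε n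
  hΦr : ∀ n, ∀ t ∈ Icc 0 (ε (n + 1)),
    Φ (r n - Λ n * t) = (r n - r (n + 1)) / Λ n + Λ (n + 1) / Λ n * t
  hcont : Continuous Φ

namespace Data

variable (S : Data)

/-- the map -/
def f (x : ℝ) : ℝ := 1 - S.Φ x

theorem continuous_f : Continuous S.f := continuous_const.sub S.hcont

theorem r_anti (n : ℕ) : S.r (n + 1) ≤ S.r n := by
  have h1 := S.hrs n
  have h2 : 0 < S.Λ n * S.ε (n + 1) := mul_pos (S.hΛ n) (S.hε _)
  linarith

theorem Icc_sub (n : ℕ) : Icc (S.l (n + 1)) (S.r (n + 1)) ⊆ Icc (S.l n) (S.r n) :=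
  Icc_subset_Icc (S.hlmono n).le (S.r_anti n)

theorem b_lt_r (n : ℕ) : S.b < S.r n := by
  have h1 := S.hbs n
  have h2 : 0 < S.Λ n * S.ε (n + 1) := mul_pos (S.hΛ n) (S.hε _)
  linarith

theorem mapsTo : MapsTo S.f (Icc 0 1) (Icc 0 1) := by
  intro x hx
  have hx' : x ∈ Icc (S.l 0) (S.r 0) := by rw [S.hl0, S.hr0]; exact hx
  obtain ⟨h1, h2⟩ := S.hΦ 0 x hx'
  have h3 : S.ε 0 = 1 := by
    have := S.hlen 0
    rw [S.hl0, S.hr0, S.hΛ0] at this
    linarith
  rw [h3] at h2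
  exact ⟨by unfold f; linarith, by unfold f; linarith⟩

/-- The renormalised iterate. -/
theorem iter (n : ℕ) : ∀ z, 0 ≤ S.Φ z → S.Φ z ≤ S.ε n → S.f^[2 ^ n] z = S.r n - S.Λ n * S.Φ z := by
  induction n with
  | zero =>
    intro z _ _
    rw [pow_zero, Function.iterate_one, S.hr0, S.hΛ0, one_mul]
    rfl
  | succ n ih =>
    intro z h0 h1
    have hL := S.hΛ n
    have h2 : S.f^[2 ^ n] z = S.r n - S.Λ n * S.Φ z := ih z h0 (h1.trans (S.hεanti n))
    rw [pow_succ, mul_two, Function.iterate_add_apply, h2]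
    have h3 := S.hΦr n (S.Φ z) ⟨h0, h1⟩
    have h4 : 0 ≤ S.Λ (n + 1) / S.Λ n * S.Φ z :=
      mul_nonneg (div_nonneg (S.hΛ _).le hL.le) h0
    have h5 : 0 ≤ (S.r n - S.r (n + 1)) / S.Λ n :=
      div_nonneg (by linarith [S.r_anti n]) hL.le
    have h6 : (S.r n - S.r (n + 1)) / S.Λ n + S.Λ (n + 1) / S.Λ n * S.Φ z ≤ S.ε n := by
      have h7 : S.Λ (n + 1) * S.Φ z ≤ S.r (n + 1) - S.l (n + 1) := by
        rw [S.hlen]; exact mul_le_mul_of_nonneg_left h1 (S.hΛ _).le
      have h8 : (S.r n - S.r (n + 1)) / S.Λ n + S.Λ (n + 1) / S.Λ n * S.Φ z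
          = (S.r n - S.r (n + 1) + S.Λ (n + 1) * S.Φ z) / S.Λ n := by ring
      rw [h8, div_le_iff₀ hL]
      have h9 := S.hlen n
      have h10 := S.hlmono n
      nlinarith
    rw [ih _ (by rw [h3]; exact add_nonneg h5 h4) (by rw [h3]; exact h6), h3]
    field_simp
    ring

theorem iter' (n : ℕ) {z : ℝ} (hz : z ∈ Icc (S.l n) (S.r n)) :
    S.f^[2 ^ n] z = S.r n - S.Λ n * S.Φ z :=
  S.iter n z (S.hΦ n z hz).1 (S.hΦ n z hz).2

theorem iter_mem (n : ℕ) : MapsTo S.f^[2 ^ n] (Icc (S.l n) (S.r n)) (Icc (S.l n) (S.r n)) := by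
  intro z hz
  rw [S.iter' n hz]
  obtain ⟨h1, h2⟩ := S.hΦ n z hz
  have h3 := S.hlen n
  have h4 := S.hΛ n
  have h5 : S.Λ n * S.Φ z ≤ S.Λ n * S.ε n := mul_le_mul_of_nonneg_left h2 h4.le
  have h6 : 0 ≤ S.Λ n * S.Φ z := mul_nonneg h4.le h1
  exact ⟨by linarith, by linarith⟩

theorem iter_b (n : ℕ) : ∀ j, 0 < j → j < 2 ^ n → ∀ z ∈ Icc (S.l n) (S.r n), S.b ≤ S.f^[j] z := by
  induction n with
  | zero => intro j h1 h2; simp at h2; omega
  | succ n ih =>
    intro j h1 h2 z hz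
    have hz' := S.Icc_sub n hz
    rcases lt_trichotomy j (2 ^ n) with h | h | h
    · exact ih j h1 h z hz'
    · subst h
      rw [S.iter' n hz']
      have h3 := (S.hΦ (n + 1) z hz).2
      have h4 := mul_le_mul_of_nonneg_left h3 (S.hΛ n).le
      have h5 := S.hbs n
      linarith
    · obtain ⟨i, rfl⟩ := Nat.exists_eq_add_of_lt h
      have h3 : 2 ^ n + i + 1 = (i + 1) + 2 ^ n := by ring
      rw [h3, Function.iterate_add_apply]
      refine ih (i + 1) (Nat.succ_pos i) ?_ _ (S.iter_mem n hz')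
      rw [pow_succ] at h2
      omega

/-- `a` is not in its own special `α`-limit set. -/
theorem a_notMem : S.a ∉ sAlpha S.f S.a := by
  rintro ⟨u, hu1, hu0, hstep, φ, hφ, hlim⟩
  have hback : ∀ m k, S.f^[k] (u (m + k)) = u m := by
    intro m k
    induction k with
    | zero => rfl
    | succ k ih => rw [Function.iterate_succ_apply, ← add_assoc, hstep, ih]
  -- a time m ≥ 1 with u m < b
  obtain ⟨k₀, hk₀⟩ := ((hlim.eventually (gt_mem_nhds S.hab)).and (eventually_ge_atTop 1)).exists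
  set m := φ k₀ with hm
  have hm1 : 1 ≤ m := hk₀.2.trans (hφ.id_le k₀)
  have hmem : ∀ n, u m ∈ Icc (S.l n) (S.r n) := by
    intro n
    have ha1 : ∀ᶠ x in 𝓝 S.a, S.l n < x := lt_mem_nhds (S.hla n)
    have ha2 : ∀ᶠ x in 𝓝 S.a, x < S.r n := gt_mem_nhds (S.hab.trans (S.b_lt_r n))
    obtain ⟨k, hk⟩ := ((hlim.eventually (ha1.and ha2)).and (eventually_ge_atTop k₀)).exists
    obtain ⟨⟨h1, h2⟩, h3⟩ := hk
    have h4 : m ≤ φ k := hφ.monotone h3
    obtain ⟨j, hj⟩ := Nat.exists_eq_add_of_le h4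
    have h5 : S.f^[j] (u (φ k)) = u m := by rw [hj]; exact hback m j
    have h6 := Nat.div_add_mod j (2 ^ n)
    have h7 := Nat.mod_lt j (Nat.two_pow_pos n)
    set i := j % 2 ^ n with hi
    have h8 : S.f^[j] (u (φ k)) = S.f^[i] ((S.f^[2 ^ n])^[j / 2 ^ n] (u (φ k))) := by
      rw [← Function.iterate_mul, ← Function.iterate_add_apply]
      congr 1
      congr 1
      omega
    have h9 : (S.f^[2 ^ n])^[j / 2 ^ n] (u (φ k)) ∈ Icc (S.l n) (S.r n) :=
      (S.iter_mem n).iterate _ ⟨h1.le, h2.le⟩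
    rcases Nat.eq_zero_or_pos i with h0 | h0
    · rw [h0] at h8
      rw [← h5, h8]
      exact h9
    · exfalso
      have := S.iter_b n i h0 h7 _ h9
      rw [← h8, h5] at this
      exact absurd hk₀.1 (not_lt.2 this)
  have h1 : m < 2 ^ m := Nat.lt_two_pow_self
  have h2 := S.iter_b m m hm1 h1 _ (hmem m)
  have h3 := hback 0 m
  rw [zero_add] at h3
  rw [h3, hu0] at h2
  exact absurd S.hab (not_lt.2 h2)

/-- Points of the special `α`-limit set of `a` close to `a`. -/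
theorem exists_mem (n : ℕ) : ∃ y ∈ Icc (S.l n) (S.l (n + 1)), y ∈ sAlpha S.f S.a := by
  have hl0 : 0 ≤ S.l n := by
    have : Monotone S.l := monotone_nat_of_le_succ fun n => (S.hlmono n).le
    rw [← S.hl0]
    exact this (Nat.zero_le n)
  have hr1 : S.l (n + 1) ≤ 1 := by
    have h1 : Antitone S.r := antitone_nat_of_succ_le S.r_anti
    have h2 := h1 (Nat.zero_le (n + 1))
    rw [S.hr0] at h2
    linarith [S.hla (n + 1), S.hab, S.b_lt_r (n + 1)]
  refine exists_mem_sAlpha S.mapsTo (Nat.two_pow_pos n) hl0 hr1 ?_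
  intro w hw
  have hsub : Icc (S.l n) (S.l (n + 1)) ⊆ Icc (S.l n) (S.r n) :=
    Icc_subset_Icc le_rfl (by linarith [S.hla (n + 1), S.hab, S.b_lt_r n])
  have hL : S.f^[2 ^ n] (S.l n) = S.l n := by
    rw [S.iter' n (hsub (left_mem_Icc.2 (S.hlmono n).le)), S.hΦl, ← S.hlen]
    ring
  have hR : S.f^[2 ^ n] (S.l (n + 1)) = S.r n - S.Λ n * S.ε (n + 1) := by
    rw [S.iter' n (hsub (right_mem_Icc.2 (S.hlmono n).le)), S.hΦl]
  have hw' : w ∈ Icc (S.f^[2 ^ n] (S.l n)) (S.f^[2 ^ n] (S.l (n + 1))) := by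
    rw [hL, hR]
    have h1 := S.hbs n
    have h2 := S.hla n
    have h3 := S.hla (n + 1)
    have h4 := S.hab
    rcases hw with rfl | hw
    · exact ⟨h2.le, by linarith⟩
    · exact ⟨hw.1, by linarith [hw.2]⟩
  obtain ⟨z, hz, hzw⟩ := intermediate_value_Icc (S.hlmono n).le
    (S.continuous_f.iterate (2 ^ n)).continuousOn hw'
  exact ⟨z, hz, hzw⟩

theorem not_isClosed : ¬ IsClosed (sAlpha S.f S.a) := by
  intro hcl
  choose y hy1 hy2 using S.exists_mem
  have h1 : Tendsto y atTop (𝓝 S.a) :=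
    tendsto_of_tendsto_of_tendsto_of_le_of_le S.hltend
      (S.hltend.comp (tendsto_add_atTop_nat 1)) (fun n => (hy1 n).1) (fun n => (hy1 n).2)
  exact S.a_notMem (hcl.mem_of_tendsto h1 (Eventually.of_forall hy2))

end Data

end Q78.SAL
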